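import Mathlib

set_option autoImplicit false
set_option maxHeartbeats 400000

namespace Pool.Agent.Results.MP_e25dcb_al.NotClosed

/-- A reduced word: letters in `S`, and no word in `S` for the same element is shorter. -/
def IsReduced {W : Type} [Group W] (S : Finset W) (l : List W) : Prop :=
  (∀ s ∈ l, s ∈ S) ∧ ∀ l' : List W, (∀ s ∈ l', s ∈ S) → l'.prod = l.prod → l.length ≤ l'.length

/-- Right weak order. -/
def WeakLe {W : Type} [Group W] (S : Finset W) (u v : W) : Prop :=
  ∃ l t : List W, IsReduced S l ∧ IsReduced S (l ++ t) ∧ l.prod = u ∧ (l ++ t).prod = v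

def IsMeet {W : Type} [Group W] (S : Finset W) (X : Set W) (m : W) : Prop :=
  (∀ x ∈ X, WeakLe S m x) ∧ ∀ y, (∀ x ∈ X, WeakLe S y x) → WeakLe S y m

def IsJoin {W : Type} [Group W] (S : Finset W) (X : Set W) (j : W) : Prop :=
  (∀ x ∈ X, WeakLe S x j) ∧ ∀ y, (∀ x ∈ X, WeakLe S x y) → WeakLe S j y

abbrev G := DihedralGroup 4 × Multiplicative (ZMod 2)

open DihedralGroup

def a : G := (sr 0, 1)
def b : G := (sr 1, 1)
def c : G := (sr 1, Multiplicative.ofAdd 1)
def d : G := (sr 2, Multiplicative.ofAdd 1)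
def S0 : Finset G := {a, b, c, d}

def words : List (List G) :=
  [[], [b, c], [a, b], [a, c], [a, b, a, b], [a, d], [b, a], [c, a], [a], [a, b, c], [b], [c],
    [b, a, b], [d], [a, b, a], [a, c, a]]

def wd (w : G) : List G := (words.find? (fun l => l.prod = w)).getD []

def L (w : G) : ℕ := (wd w).length

def phi (w : G) : Finset G := S0.filter (fun s => 1 + L (s⁻¹ * w) = L w)

theorem wd_prod : ∀ w : G, (wd w).prod = w := by decide +kernel
theorem wd_mem : ∀ w : G, ∀ s ∈ wd w, s ∈ S0 := by decide +kernel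
theorem L_step : ∀ s ∈ S0, ∀ w : G, L (s * w) ≤ L w + 1 := by decide +kernel
theorem L_tri : ∀ u w : G, L (u * w) ≤ L u + L w := by decide +kernel
theorem L_phi : ∀ u v : G, L u + L (u⁻¹ * v) = L v ↔ phi u ⊆ phi v := by decide +kernel
theorem phi_inj : ∀ u v : G, phi u = phi v → u = v := by decide +kernel
theorem phi_surj : ∀ A ∈ S0.powerset, ∃ w : G, phi w = A := by
  have h : Finset.univ.image phi = S0.powerset := by
    apply Finset.eq_of_subset_of_card_le
    · intro A hA
      obtain ⟨w, -, rfl⟩ := Finset.mem_image.1 hA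
      exact Finset.mem_powerset.2 (Finset.filter_subset _ _)
    · rw [Finset.card_powerset, Finset.card_image_of_injective _ phi_inj]
      decide +kernel
  intro A hA
  rw [← h] at hA
  obtain ⟨w, -, hw⟩ := Finset.mem_image.1 hA
  exact ⟨w, hw⟩
theorem k0 : ∀ m : G, (phi m ⊆ phi (a * b) ∧ phi m ⊆ phi (b * a * b)) → phi m ⊆ phi c := by
  decide +kernel
theorem k2 : ∀ m : G, (phi (a * c) ⊆ phi m ∧ phi m ⊆ phi (a * c)) → m.2 ≠ 1 := by decide +kernel
theorem k3 : ∀ m : G, (phi a ⊆ phi m ∧ phi b ⊆ phi m) → phi (a * c) ⊆ phi m := by decide +kernel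
theorem k4 : ∀ m : G, (phi m ⊆ phi c ∧ phi c ⊆ phi m) → m.2 ≠ 1 := by decide +kernel

theorem L_le (l : List G) (h : ∀ s ∈ l, s ∈ S0) : L l.prod ≤ l.length := by
  induction l with
  | nil => decide +kernel
  | cons s l ih =>
    rw [List.prod_cons, List.length_cons]
    exact (L_step s (h s (by simp)) _).trans
      (Nat.add_le_add_right (ih fun x hx => h x (by simp [hx])) 1)

theorem red_iff (l : List G) : IsReduced S0 l ↔ (∀ s ∈ l, s ∈ S0) ∧ l.length = L l.prod := by
  constructor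
  · rintro ⟨h1, h2⟩
    exact ⟨h1, le_antisymm (h2 _ (wd_mem _) (wd_prod _)) (L_le l h1)⟩
  · rintro ⟨h1, h2⟩
    refine ⟨h1, fun l' h3 h4 => ?_⟩
    rw [h2, ← h4]
    exact L_le l' h3

theorem le_iff (u v : G) : WeakLe S0 u v ↔ phi u ⊆ phi v := by
  rw [← L_phi]
  constructor
  · rintro ⟨l, t, h1, h2, rfl, rfl⟩
    rw [red_iff] at h1 h2
    have h3 := L_le t (fun s hs => h2.1 s (by simp [hs]))
    have h4 := L_tri l.prod t.prod
    have h5 := h2.2
    have h6 := h1.2
    rw [List.length_append] at h5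
    rw [List.prod_append] at h5 ⊢
    rw [inv_mul_cancel_left]
    omega
  · intro h
    refine ⟨wd u, wd (u⁻¹ * v), ?_, ?_, wd_prod u, ?_⟩
    · rw [red_iff, wd_prod]
      exact ⟨wd_mem u, rfl⟩
    · rw [red_iff, List.prod_append, wd_prod, wd_prod, mul_inv_cancel_left, List.length_append]
      refine ⟨fun s hs => ?_, h⟩
      rcases List.mem_append.1 hs with h' | h'
      · exact wd_mem _ s h'
      · exact wd_mem _ s h'
    · rw [List.prod_append, wd_prod, wd_prod, mul_inv_cancel_left]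

def eps : G →* ℤˣ where
  toFun w := if L w % 2 = 0 then 1 else -1
  map_one' := by decide +kernel
  map_mul' := by decide +kernel

theorem snd_eq {w : G} (h : w ∈ Subgroup.closure (({a, b} : Finset G) : Set G)) : w.2 = 1 := by
  induction h using Subgroup.closure_induction with
  | mem x hx =>
    simp only [Finset.coe_insert, Finset.coe_singleton, Set.mem_insert_iff,
      Set.mem_singleton_iff] at hx
    rcases hx with rfl | rfl <;> rfl
  | one => rfl
  | mul x y _ _ hx hy => simp [hx, hy]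
  | inv x _ hx => simp [hx]

theorem result : ∃ (W : Type) (_ : Group W) (S : Finset W),
    Subgroup.closure (S : Set W) = ⊤ ∧ (∀ s ∈ S, orderOf s = 2) ∧
    (∃ ε : W →* ℤˣ, ∀ s ∈ S, ε s = -1) ∧
    (∀ X : Set W, X.Nonempty → ∃ m, IsMeet S X m) ∧
    ∃ I : Finset W, I ⊆ S ∧
      (∃ X : Set W, X.Nonempty ∧ X ⊆ Subgroup.closure (I : Set W) ∧
        ∀ m, IsMeet S X m → m ∉ Subgroup.closure (I : Set W)) ∧
      (∃ X : Set W, X ⊆ Subgroup.closure (I : Set W) ∧ (∃ j, IsJoin S X j) ∧
        ∀ j, IsJoin S X j → j ∉ Subgroup.closure (I : Set W)) := by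
  have ha : a ∈ Subgroup.closure (({a, b} : Finset G) : Set G) := Subgroup.subset_closure (by simp)
  have hb : b ∈ Subgroup.closure (({a, b} : Finset G) : Set G) := Subgroup.subset_closure (by simp)
  refine ⟨G, inferInstance, S0, ?_, ?_, ⟨eps, by decide +kernel⟩, ?_, {a, b}, by decide +kernel,
    ⟨{a * b, b * a * b}, ⟨a * b, by simp⟩, ?_, ?_⟩, ⟨{a, b}, ?_, ⟨a * c, ?_, ?_⟩, ?_⟩⟩
  · rw [eq_top_iff]
    intro w _
    rw [← wd_prod w]
    exact Subgroup.list_prod_mem _ fun s hs => Subgroup.subset_closure (wd_mem w s hs)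
  · intro s hs
    have : Fact (Nat.Prime 2) := ⟨Nat.prime_two⟩
    exact orderOf_eq_prime (by revert s; decide +kernel) (by revert s; decide +kernel)
  · intro X _
    classical
    obtain ⟨m, hm⟩ := phi_surj (S0.filter fun s => ∀ x ∈ X, s ∈ phi x)
      (Finset.mem_powerset.2 (Finset.filter_subset _ _))
    refine ⟨m, fun x hx => ?_, fun y hy => ?_⟩
    · rw [le_iff, hm]
      intro s hs
      exact (Finset.mem_filter.1 hs).2 x hx
    · rw [le_iff, hm]
      intro s hs
      exact Finset.mem_filter.2 ⟨(Finset.mem_filter.1 hs).1, fun x hx => (le_iff _ _).1 (hy x hx) hs⟩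
  · rintro x (rfl | rfl)
    · exact mul_mem ha hb
    · exact mul_mem (mul_mem hb ha) hb
  · rintro m ⟨h1, h2⟩ hm
    have e1 := (le_iff _ _).1 (h1 (a * b) (by simp))
    have e2 := (le_iff _ _).1 (h1 (b * a * b) (by simp))
    have e3 := (le_iff _ _).1 (h2 c (by
      rintro x (rfl | rfl) <;> rw [le_iff] <;> decide +kernel))
    exact k4 m ⟨k0 m ⟨e1, e2⟩, e3⟩ (snd_eq hm)
  · rintro x (rfl | rfl)
    · exact ha
    · exact hb
  · rintro x (rfl | rfl) <;> rw [le_iff] <;> decide +kernel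
  · intro y hy
    have e1 := (le_iff _ _).1 (hy a (by simp))
    have e2 := (le_iff _ _).1 (hy b (by simp))
    rw [le_iff]
    exact k3 y ⟨e1, e2⟩
  · rintro m ⟨h1, h2⟩ hm
    have e1 := (le_iff _ _).1 (h1 a (by simp))
    have e2 := (le_iff _ _).1 (h1 b (by simp))
    have e3 := (le_iff _ _).1 (h2 (a * c) (by
      rintro x (rfl | rfl) <;> rw [le_iff] <;> decide +kernel))
    exact k2 m ⟨k3 m ⟨e1, e2⟩, e3⟩ (snd_eq hm)

end Pool.Agent.Results.MP_e25dcb_al.NotClosed
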